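import Mathlib
import Pool.Agent.H9.RealCrit.Defs
import Pool.Agent.H9.RealCrit.Dense

/-!
# Positive `2 × 2 × 2` probability tensors with several real critical points

For every probability tensor `T` near the tensor with entries `37/80` at `(1,1,1)`, `(2,2,2)` and
`1/80` elsewhere, `d_T` has at least two real critical points on the variety of rank-one tensors
with entries summing to `1`.  This is an open set of tensors, so it contains generic ones.
-/

namespace Pool.Agent.Results.MP_450528_ag.SeveralRealCriticalPoints

open Pool.Agent.H9.RealCrit

/-- (1) There is an open set (in the hyperplane `H` of real tensors with entries summing to `1`) of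
probability tensors with positive entries for which `d_T` has at least two real critical points on
`X^H`.  (2) Every property that holds for generic complex tensors in `H` holds for some positive
probability tensor `T` such that `d_T` has at least two real critical points.  (3) In particular, if
`d_T` has exactly `N` critical points on `X^H` for generic `T`, then some positive probability
tensor `T` has exactly `N` critical points, at least two of which are real. -/
theorem result :
    (∃ (T₁ : Tensor ℝ) (η : ℝ), IsPosProb T₁ ∧ 0 < η ∧ ∀ T : Tensor ℝ, tot T = 1 →
      (∀ i j l, |T i j l - T₁ i j l| < η) → IsPosProb T ∧ TwoReal T) ∧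
    (∀ Q : Tensor ℂ → Prop, Generic Q → ∃ T : Tensor ℝ, IsPosProb T ∧ Q (toC T) ∧ TwoReal T) ∧
    (∀ N : ℕ, Generic (fun T => (critSet T).encard = N) →
      ∃ T : Tensor ℝ, IsPosProb T ∧ (critSet (toC T)).encard = N ∧ TwoReal T) :=
  main

end Pool.Agent.Results.MP_450528_ag.SeveralRealCriticalPoints
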